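import Pool.Agent.K1H73.ON.Stm

/-!
# DG: degrees at an arc
-/

set_option autoImplicit false

namespace Pool.Agent.K1H86.ON

open Pool.Agent.K1H73.ON Finset

lemma cor_mod (c : V) (k : ℕ) : cor c k = cor c (k % 6) := by
  unfold cor; simp [Nat.mod_mod]

lemma side_mod (c : V) (k : ℕ) : side c k = side c (k % 6) := by
  have h1 : cor c k = cor c (k % 6) := cor_mod c k
  have h2 : cor c (k + 1) = cor c (k % 6 + 1) := by
    rw [cor_mod c (k + 1), cor_mod c (k % 6 + 1)]
    congr 1
    omega
  unfold side
  rw [h2, ← h1]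

lemma nbr_symm {p q : V} (h : Nbr p q) : Nbr q p := by
  obtain ⟨p1, p2⟩ := p
  obtain ⟨q1, q2⟩ := q
  simp only [Nbr, Prod.mk_sub_mk, Prod.mk.injEq, Int.even_iff] at h ⊢
  omega

lemma nbr_cor (c : V) (hc : Even (c.1 + c.2)) (j : ℕ) (hj : j < 6) (q : V)
    (h : Nbr (cor c j) q) : q = cor c (j + 1) ∨ q = cor c (j + 5) ∨ q = outv c j := by
  obtain ⟨c1, c2⟩ := c
  obtain ⟨q1, q2⟩ := q
  simp only [Int.even_iff] at hc
  interval_cases j <;> simp [Nbr, cor, outv, Prod.ext_iff, Int.even_iff] at h ⊢ <;> omega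

lemma side_inj (c : V) (j k : ℕ) (hj : j < 6) (hk : k < 6) (h : side c j = side c k) : j = k := by
  obtain ⟨c1, c2⟩ := c
  interval_cases j <;> interval_cases k <;>
    simp [side, cor, Prod.ext_iff] at h ⊢

/-- the edges at a corner -/
lemma edge_cor (c : V) (hc : Even (c.1 + c.2)) (j : ℕ) (hj : j < 6) (e : Sym2 V)
    (he : ∃ p q, e = s(p, q) ∧ Nbr p q) (hv : cor c j ∈ e) :
    e = side c j ∨ e = side c (j + 5) ∨ e = out c j := by
  have key : ∀ q, Nbr (cor c j) q → s(cor c j, q) = side c j ∨ s(cor c j, q) = side c (j + 5) ∨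
      s(cor c j, q) = out c j := by
    intro q hq
    rcases nbr_cor c hc j hj q hq with h | h | h
    · left; rw [h]; rfl
    · right; left; rw [h]; unfold side
      rw [Sym2.eq_swap, cor_mod c (j + 5 + 1)]
      have : (j + 5 + 1) % 6 = j := by omega
      rw [this]
    · right; right; rw [h]; unfold out; rw [Sym2.eq_swap]
  obtain ⟨p, q, rfl, hpq⟩ := he
  rw [Sym2.mem_iff] at hv
  rcases hv with h | h
  · rw [← h] at hpq ⊢
    exact key q hpq
  · rw [← h] at hpq ⊢
    rw [Sym2.eq_swap]
    exact key p (nbr_symm hpq)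

theorem t_DG : DG := by
  classical
  intro D a b ω c i hω hi hc hab hA
  have hmem : ∀ j, j < 6 → (side c j ∈ ω ↔ j = i ∨ j = (i + 1) % 6) := by
    intro j hj
    have hh : side c j ∈ hex c := by
      unfold hex
      exact Finset.mem_image_of_mem _ (Finset.mem_range.2 hj)
    have : side c j ∈ ω ↔ side c j ∈ ω ∩ hex c := by
      rw [Finset.mem_inter]; exact ⟨fun h => ⟨h, hh⟩, fun h => h.1⟩
    rw [this, show ω ∩ hex c = _ from hA, Finset.mem_insert, Finset.mem_singleton,
      side_mod c (i + 1)]
    constructor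
    · rintro (h | h)
      · left; exact side_inj c j i hj hi h
      · right; exact side_inj c j _ hj (Nat.mod_lt _ (by norm_num)) h
    · rintro (h | h)
      · left; rw [h]
      · right; rw [h]
  have hside : ∀ k, side c k ∈ ω ↔ k % 6 = i ∨ k % 6 = (i + 1) % 6 := by
    intro k
    rw [side_mod]; exact hmem _ (Nat.mod_lt _ (by norm_num))
  have hab' : ∀ k, cor c k ≠ a ∧ cor c k ≠ b := by
    intro k
    rw [cor_mod]; exact hab _ (Nat.mod_lt _ (by norm_num))
  have hdeg : ∀ k, deg ω (cor c k) = 0 ∨ deg ω (cor c k) = 2 := fun k =>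
    hω.2.2 _ (hab' k).1 (hab' k).2
  have hedge : ∀ e ∈ ω, ∃ p q, e = s(p, q) ∧ Nbr p q := by
    intro e he
    obtain ⟨p, q, h1, h2, _⟩ := hω.1 e he
    exact ⟨p, q, h1, h2⟩
  have hs0 : side c i ∈ ω := (hside i).2 (Or.inl (Nat.mod_eq_of_lt hi))
  have hs1 : side c (i + 1) ∈ ω := (hside (i + 1)).2 (Or.inr rfl)
  have hpos : ∀ v e, e ∈ ω → v ∈ e → deg ω v ≠ 0 := by
    intro v e he hv h
    unfold deg at h
    rw [Finset.card_eq_zero] at h
    have : e ∈ ω.filter (fun e => v ∈ e) := Finset.mem_filter.2 ⟨he, hv⟩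
    rw [h] at this
    exact absurd this (Finset.notMem_empty _)
  have hzero : ∀ k, side c k ∉ ω → side c (k + 5) ∉ ω → deg ω (cor c k) = 0 := by
    intro k h1 h2
    rcases hdeg k with h | h
    · exact h
    · exfalso
      have hsub : ω.filter (fun e => cor c k ∈ e) ⊆ {out c (k % 6)} := by
        intro e he
        rw [Finset.mem_filter] at he
        rw [Finset.mem_singleton]
        have hv := he.2
        rw [cor_mod] at hv
        rcases edge_cor c hc (k % 6) (Nat.mod_lt _ (by norm_num)) e (hedge e he.1) hv with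
          h3 | h3 | h3
        · exfalso; apply h1; rw [side_mod, ← h3]; exact he.1
        · exfalso; apply h2; rw [side_mod]
          have : (k + 5) % 6 = (k % 6 + 5) % 6 := by omega
          rw [this, ← side_mod, ← h3]; exact he.1
        · exact h3
      have := Finset.card_le_card hsub
      rw [Finset.card_singleton] at this
      unfold deg at h
      have h4 : (ω.filter (fun e => cor c k ∈ e)).card = 2 := by
        convert h
      omega
  have m1 : cor c (i + 1) ∈ side c i := by unfold side; exact Sym2.mem_mk_right _ _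
  have m1' : cor c (i + 1) ∈ side c (i + 1) := by unfold side; exact Sym2.mem_mk_left _ _
  have d1 : deg ω (cor c (i + 1)) = 2 := (hdeg _).resolve_left (hpos _ _ hs0 m1)
  have d3 : deg ω (cor c (i + 3)) = 0 := hzero _ (by rw [hside]; omega) (by rw [hside]; omega)
  have d4 : deg ω (cor c (i + 4)) = 0 := hzero _ (by rw [hside]; omega) (by rw [hside]; omega)
  have d5 : deg ω (cor c (i + 5)) = 0 := hzero _ (by rw [hside]; omega) (by rw [hside]; omega)
  refine ⟨d1, d3, d4, d5, ?_⟩
  rintro u s hus hu ⟨j, hj, rfl⟩ hconn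
  have hmj : cor c j ∈ s(u, cor c j) := Sym2.mem_mk_right _ _
  have hne : deg ω (cor c j) ≠ 0 := hpos _ _ hus hmj
  have hu' : ∀ k, u ≠ cor c k := by
    intro k; rw [cor_mod]; exact hu _ (Nat.mod_lt _ (by norm_num))
  have hcases : j = i ∨ j = (i + 1) % 6 ∨ j = (i + 2) % 6 ∨ j = (i + 3) % 6 ∨ j = (i + 4) % 6 ∨
      j = (i + 5) % 6 := by omega
  have c0 : Conn ω (cor c i) (cor c (i + 1)) := by
    apply SimpleGraph.Adj.reachable
    rw [SimpleGraph.fromEdgeSet_adj]
    refine ⟨hs0, ?_⟩
    intro h
    have hh := side_inj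
    obtain ⟨c1, c2⟩ := c
    clear * - hi h
    interval_cases i <;> simp [cor, Prod.ext_iff] at h
  have c1 : Conn ω (cor c (i + 1)) (cor c (i + 2)) := by
    apply SimpleGraph.Adj.reachable
    rw [SimpleGraph.fromEdgeSet_adj]
    refine ⟨hs1, ?_⟩
    intro h
    obtain ⟨c1, c2⟩ := c
    clear * - hi h
    interval_cases i <;> simp [cor, Prod.ext_iff] at h
  rcases hcases with h | h | h | h | h | h
  · rw [← h]; exact hconn
  · exfalso
    rw [h, ← cor_mod] at hus
    have n1 : side c i ≠ side c (i + 1) := by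
      intro hh
      rw [side_mod c (i + 1)] at hh
      have := side_inj c i _ hi (Nat.mod_lt _ (by norm_num)) hh
      omega
    have n2 : s(u, cor c (i + 1)) ≠ side c i := by
      intro hh
      have : u ∈ side c i := by rw [← hh]; exact Sym2.mem_mk_left _ _
      unfold side at this
      rw [Sym2.mem_iff] at this
      rcases this with h4 | h4
      · exact hu' _ h4
      · exact hu' _ h4
    have n3 : s(u, cor c (i + 1)) ≠ side c (i + 1) := by
      intro hh
      have : u ∈ side c (i + 1) := by rw [← hh]; exact Sym2.mem_mk_left _ _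
      unfold side at this
      rw [Sym2.mem_iff] at this
      rcases this with h4 | h4
      · exact hu' _ h4
      · exact hu' _ h4
    have hsub : ({s(u, cor c (i + 1)), side c i, side c (i + 1)} : Finset (Sym2 V)) ⊆
        ω.filter (fun e => cor c (i + 1) ∈ e) := by
      intro e he
      rw [Finset.mem_insert, Finset.mem_insert, Finset.mem_singleton] at he
      rw [Finset.mem_filter]
      rcases he with rfl | rfl | rfl
      · exact ⟨hus, Sym2.mem_mk_right _ _⟩
      · exact ⟨hs0, m1⟩
      · exact ⟨hs1, m1'⟩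
    have h5 := Finset.card_le_card hsub
    have h6 : ({s(u, cor c (i + 1)), side c i, side c (i + 1)} : Finset (Sym2 V)).card = 3 := by
      rw [Finset.card_insert_of_notMem, Finset.card_insert_of_notMem, Finset.card_singleton]
      · rw [Finset.mem_singleton]; exact n1
      · rw [Finset.mem_insert, Finset.mem_singleton]
        rintro (h | h)
        · exact n2 h
        · exact n3 h
    have h7 : (ω.filter (fun e => cor c (i + 1) ∈ e)).card = 2 := by
      unfold deg at d1
      convert d1
    omega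
  · rw [h, ← cor_mod] at hconn
    exact (hconn.trans c1.symm).trans c0.symm
  · rw [h, ← cor_mod] at hne; exact absurd d3 hne
  · rw [h, ← cor_mod] at hne; exact absurd d4 hne
  · rw [h, ← cor_mod] at hne; exact absurd d5 hne

end Pool.Agent.K1H86.ON
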